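import Pool.Agent.H43.HQ.QDS

/-!
Row QCI of hqn_modules: continuity of the ring and of the selecting function, and invariance
under unit scalars.
-/

set_option autoImplicit false

open Topology Filter

namespace Pool.Agent.H43.HQ

open Pool.Agent.H30.HQ Pool.Agent.H59 Pool.Agent.H48.FR Pool.Agent.H58.FL Pool.Agent.H58.JU
open scoped Quaternion

noncomputable section

theorem contOn_bool {X Y : Type} [TopologicalSpace X] [TopologicalSpace Y] {b : X → Bool}
    (hb : Continuous b) {f₁ f₂ : X → Y} {S : Set X} (h₁ : ContinuousOn f₁ S)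
    (h₂ : ContinuousOn f₂ S) : ContinuousOn (fun x => if b x then f₁ x else f₂ x) S := by
  intro x hx
  have hn : ∀ᶠ z in 𝓝 x, b z = b x :=
    hb.continuousAt.preimage_mem_nhds ((isOpen_discrete {b x}).mem_nhds rfl)
  cases hbx : b x
  · refine (h₂ x hx).congr_of_eventuallyEq ?_ ?_
    · filter_upwards [mem_nhdsWithin_of_mem_nhds hn] with z hz
      rw [hz, hbx]
      simp
    · simp [hbx]
  · refine (h₁ x hx).congr_of_eventuallyEq ?_ ?_
    · filter_upwards [mem_nhdsWithin_of_mem_nhds hn] with z hz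
      rw [hz, hbx]
      simp
    · simp [hbx]

theorem contOn_yv {A : Type} [TopologicalSpace A] {n : ℕ} (ρ : ℝ) {y : A → Fin (n + 1) → ℍ[ℝ]}
    {q : A → ℍ[ℝ]} {S : Set A} (hy : Continuous y) (hq : Continuous q)
    (hS : ∀ a ∈ S, tl (y a) ≠ 0) : ContinuousOn (fun a => yv ρ (y a) (q a)) S := by
  refine continuousOn_pi.2 fun i => ?_
  refine Fin.cases ?_ (fun j => ?_) i
  · exact continuousOn_const
  · have h8 : ContinuousOn (fun a => vv (y a) j) S :=
      (continuousOn_vv j).comp hy.continuousOn hS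
    exact continuousOn_const.mul (hq.continuousOn.mul h8)

theorem contOn_FG {A : Type} [TopologicalSpace A] {n : ℕ} {g : (Fin n → ℂ) → ℝ}
    (hg : Continuous g) {y : A → Fin (n + 1) → ℂ} {s : A → ℝ} {q : A → ℂ} {S : Set A}
    (hy : Continuous y) (hs : Continuous s) (hq : Continuous q)
    (hS : ∀ a ∈ S, tl (y a) ≠ 0) : ContinuousOn (fun a => FG g (y a) (s a) (q a)) S := by
  have h8 : ∀ j, ContinuousOn (fun a => vv (y a) j) S := fun j =>
    (continuousOn_vv j).comp hy.continuousOn hS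
  have h9 : Continuous fun a => (1 - s a) * re (q a * y a 0) :=
    (continuous_const.sub hs).mul (continuous_re.comp (hq.mul ((continuous_apply 0).comp hy)))
  have h10 : ContinuousOn (fun a => (fun j => q a * vv (y a) j : Fin n → ℂ)) S :=
    continuousOn_pi.2 fun j => hq.continuousOn.mul (h8 j)
  exact h9.continuousOn.add (hs.continuousOn.mul (hg.comp_continuousOn h10))

theorem tl_cons {n : ℕ} (a : ℂ) (b : Fin n → ℂ) : tl (Fin.cons a b : Fin (n + 1) → ℂ) = b := rfl

/-- QCI: continuity and invariance. -/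
theorem pf_QCI (hQTA : T_QTA) (hQVA : T_QVA) (hQVT : T_QVT) : T_QCI := by
  intro k g hg C φ
  have hQTA' := hQTA
  obtain ⟨q1, q2, q3, q4, q5, q6, q7, q8⟩ := hQTA
  have hqv : Continuous (qv : (Fin (2 * (k + 1) + 1) → ℂ) → Fin (k + 1 + 1) → ℍ[ℝ]) :=
    (hQVA (k + 1)).1
  have htl : ∀ x : Fin (2 * (k + 1) + 1) → ℂ, t2 (m := 2 * k + 1) x ≠ 0 →
      tl (qv x : Fin (k + 1 + 1) → ℍ[ℝ]) ≠ 0 := by
    intro x h h2
    apply h
    rw [← nrm_eq_zero_iff, ← (hQVT k x).2.1, nrm_eq_zero_iff]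
    exact h2
  have hct : Continuous (fun x : Fin (2 * (k + 1) + 1) → ℂ => t2 (m := 2 * k + 1) x) :=
    (hQVT k 0).2.2.2.2.1
  have hc0 : Continuous (fun x : Fin (2 * (k + 1) + 1) → ℂ => xk x 0) :=
    (hQVT k 0).2.2.2.2.2.1
  have hc1 : Continuous (fun x : Fin (2 * (k + 1) + 1) → ℂ => xk x 1) :=
    (hQVT k 0).2.2.2.2.2.2
  have hcn : Continuous (fun x : Fin (2 * (k + 1) + 1) → ℂ => nrm (t2 (m := 2 * k + 1) x)) :=
    continuous_nrm.comp hct
  have hcN : Continuous (xN φ : (Fin (2 * (k + 1) + 1) → ℂ) → Fin (2 * k + 1 + 1) → ℂ) := by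
    refine continuous_pi fun i => ?_
    refine Fin.cases ?_ (fun j => ?_) i
    · exact (Complex.continuous_ofReal.comp (continuous_const.mul hcn)).mul hc0
    · exact (continuous_apply j).comp hct
  have hcS : Continuous (xS φ : (Fin (2 * (k + 1) + 1) → ℂ) → Fin (2 * k + 1 + 1) → ℂ) := by
    refine continuous_pi fun i => ?_
    refine Fin.cases ?_ (fun j => ?_) i
    · exact (Complex.continuous_ofReal.comp (continuous_const.mul hcn).neg).mul hc1
    · exact (continuous_apply j).comp hct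
  have hcz : Continuous (zh : (Fin (2 * (k + 1) + 1) → ℂ) → ℝ) :=
    continuous_const.sub (continuous_const.mul (hcn.pow 2))
  refine ⟨?_, ?_, ?_⟩
  · have hb : Continuous fun Z : (Fin (2 * (k + 1) + 1) → ℂ) × Rg => Z.2.2 :=
      continuous_snd.comp continuous_snd
    have hx : Continuous fun Z : (Fin (2 * (k + 1) + 1) → ℂ) × Rg =>
        (qv Z.1 : Fin (k + 1 + 1) → ℍ[ℝ]) := hqv.comp continuous_fst
    have hq : Continuous fun Z : (Fin (2 * (k + 1) + 1) → ℂ) × Rg => Z.2.1.1 :=
      continuous_subtype_val.comp (continuous_fst.comp continuous_snd)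
    refine contOn_bool hb ?_ ?_
    · exact contOn_yv _ hx (q8.comp (continuous_const.prodMk (continuous_star.comp hq)))
        (fun Z hZ => htl Z.1 hZ)
    · exact contOn_yv _ hx (q8.comp (hq.prodMk continuous_const)) (fun Z hZ => htl Z.1 hZ)
  · have hb : Continuous fun Z : (Fin (2 * (k + 1) + 1) → ℂ) × ℝ × Rg => Z.2.2.2 :=
      continuous_snd.comp (continuous_snd.comp continuous_snd)
    have hq : Continuous fun Z : (Fin (2 * (k + 1) + 1) → ℂ) × ℝ × Rg => Z.2.2.1.1 :=
      continuous_subtype_val.comp (continuous_fst.comp (continuous_snd.comp continuous_snd))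
    have hs : Continuous fun Z : (Fin (2 * (k + 1) + 1) → ℂ) × ℝ × Rg => Z.2.1 :=
      continuous_fst.comp continuous_snd
    have hz : Continuous fun Z : (Fin (2 * (k + 1) + 1) → ℂ) × ℝ × Rg =>
        (1 - Z.2.1) * (zh Z.1 * Real.cos φ) :=
      (continuous_const.sub hs).mul ((hcz.comp continuous_fst).mul continuous_const)
    refine contOn_bool hb ?_ ?_
    · refine ContinuousOn.add ?_ ?_
      · exact (hz.neg.sub (hs.mul continuous_const)).continuousOn
      · exact contOn_FG hg (hcS.comp continuous_fst) hs hq (fun Z hZ => hZ)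
    · refine ContinuousOn.add hz.continuousOn ?_
      exact contOn_FG hg (hcN.comp continuous_fst) hs hq (fun Z hZ => hZ)
  · intro a x ha
    have hn : nrm (t2 (m := 2 * k + 1) (a • x)) = nrm (t2 (m := 2 * k + 1) x) := by
      rw [((hQVT k x).2.2.2.1 a).1, nrm_smul, ha, one_mul]
    have hzh : zh (a • x) = zh x := by
      unfold zh
      rw [hn]
    have hN : (xN φ (a • x) : Fin (2 * k + 1 + 1) → ℂ) = a • xN φ x := by
      unfold xN
      rw [hn, ((hQVT k x).2.2.2.1 a).1, ((hQVT k x).2.2.2.1 a).2.1]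
      funext i
      refine Fin.cases ?_ (fun j => ?_) i
      · rw [Pi.smul_apply, Fin.cons_zero, Fin.cons_zero, smul_eq_mul]
        ring
      · rw [Pi.smul_apply, Fin.cons_succ, Fin.cons_succ, Pi.smul_apply]
    have hS : (xS φ (a • x) : Fin (2 * k + 1 + 1) → ℂ) = a • xS φ x := by
      unfold xS
      rw [hn, ((hQVT k x).2.2.2.1 a).1, ((hQVT k x).2.2.2.1 a).2.2]
      funext i
      refine Fin.cases ?_ (fun j => ?_) i
      · rw [Pi.smul_apply, Fin.cons_zero, Fin.cons_zero, smul_eq_mul]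
        ring
      · rw [Pi.smul_apply, Fin.cons_succ, Fin.cons_succ, Pi.smul_apply]
    have hqa : (qv (a • x) : Fin (k + 1 + 1) → ℍ[ℝ]) = qt a 0 • qv x := (hQVA (k + 1)).2.2.1 a x
    rintro ⟨u, b⟩
    refine ⟨(⟨u.1 * a, by rw [norm_mul, u.2, ha, one_mul]⟩, b), ?_, ?_⟩
    · cases b
      · change yv (φ / 2) (qv (a • x) : Fin (k + 1 + 1) → ℍ[ℝ]) (qt u.1 0) =
          yv (φ / 2) (qv x) (qt (u.1 * a) 0)
        rw [hqa, yv_smul (norm_qt1 hQTA' ha), q2, mul_zero]
      · change yv (Real.pi / 2 - φ / 2) (qv (a • x) : Fin (k + 1 + 1) → ℍ[ℝ]) (qt 0 (star u.1)) =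
          yv (Real.pi / 2 - φ / 2) (qv x) (qt 0 (star (u.1 * a)))
        rw [hqa, yv_smul (norm_qt1 hQTA' ha), q3, star_zero, mul_zero, neg_zero, star_mul,
          mul_comm (star a)]
    · intro s
      cases b
      · change (1 - s) * (zh (a • x) * Real.cos φ) + FG g (xN φ (a • x)) s u.1 =
          (1 - s) * (zh x * Real.cos φ) + FG g (xN φ x) s (u.1 * a)
        rw [hzh, hN, FG_smul g ha]
      · change -((1 - s) * (zh (a • x) * Real.cos φ)) - s * C + FG g (xS φ (a • x)) s u.1 =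
          -((1 - s) * (zh x * Real.cos φ)) - s * C + FG g (xS φ x) s (u.1 * a)
        rw [hzh, hS, FG_smul g ha]

end

end Pool.Agent.H43.HQ
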