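import Pool.Agent.H30.HQ.Targets

/-!
Row QDS of hqn_modules: the distances between the points of the ring of two circles, the point
itself and the base point.
-/

set_option autoImplicit false

namespace Pool.Agent.H43.HQ

open Pool.Agent.H30.HQ Pool.Agent.H59 Pool.Agent.H48.FR Pool.Agent.H58.FL Pool.Agent.H58.JU
open scoped Quaternion

noncomputable section

theorem norm_one_of_sq {a : ℝ} (h0 : 0 ≤ a) (h : a ^ 2 = 1) : a = 1 := by
  nlinarith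

theorem norm_qt1 (hQTA : T_QTA) {u : ℂ} (hu : ‖u‖ = 1) : ‖qt u 0‖ = 1 := by
  apply norm_one_of_sq (norm_nonneg _)
  rw [hQTA.1, hu, norm_zero]
  norm_num

theorem norm_qt2 (hQTA : T_QTA) {u : ℂ} (hu : ‖u‖ = 1) : ‖qt 0 (star u)‖ = 1 := by
  apply norm_one_of_sq (norm_nonneg _)
  rw [hQTA.1, norm_zero, norm_star, hu]
  norm_num

theorem dist_ring (hDS : T_DS) {n : ℕ} (Y : Sph ℍ[ℝ] n) {ρ : ℝ} (h0 : 0 ≤ ρ)
    (h1 : ρ ≤ Real.pi / 2) (ht : tl Y.1 ≠ 0) {Q : ℍ[ℝ]} (hQ : ‖Q‖ = 1) :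
    ∃ hy : yv ρ Y.1 Q ≠ 0, dist (bp ℍ[ℝ] n) (PP.mk _ hy : PP ℍ[ℝ] n) = ρ ∧
      Real.cos (2 * dist (prS Y) (PP.mk _ hy : PP ℍ[ℝ] n)) =
        (1 - 2 * nrm (tl Y.1) ^ 2) * Real.cos (2 * ρ) +
          2 * nrm (tl Y.1) * Real.sin (2 * ρ) * re (Q * Y.1 0) := by
  obtain ⟨⟨e1, e2, -⟩, h⟩ := hDS ℍ[ℝ] n ρ Y h0 h1
  obtain ⟨hy, -, h2, -, h3⟩ := h ht Q Q hQ hQ
  refine ⟨hy, h2, ?_⟩
  have h4 : ‖Y.1 0‖ ^ 2 = 1 - nrm (tl Y.1) ^ 2 := by
    rw [← e1, ← e2]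
    have := Real.sin_sq_add_cos_sq (dist (bp ℍ[ℝ] n) (prS Y))
    linarith
  rw [Real.cos_two_mul, h3, Real.cos_two_mul, Real.sin_two_mul, mul_pow, h4]
  have h5 := Real.sin_sq_add_cos_sq ρ
  have h6 : Real.sin ρ ^ 2 = 1 - Real.cos ρ ^ 2 := by linarith
  rw [mul_pow, h6]
  ring

theorem re_c (a : ℂ) : re a = a.re := rfl

/-- QDS: distances. -/
theorem pf_QDS (hQTA : T_QTA) (hQVA : T_QVA) (hQVT : T_QVT) (hDS : T_DS) (hDS2 : T_DS2) :
    T_QDS := by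
  intro k g hg φ X hφ0 hφ1
  obtain ⟨hv0, hvt, -, -, -, -, -⟩ := hQVT k X.1
  let Y : Sph ℍ[ℝ] (k + 1) := ⟨qv X.1, by rw [(hQVA (k + 1)).2.1]; exact X.2⟩
  have hY : Y.1 = qv X.1 := rfl
  have hgY : g (prS X) = (prS Y : PP ℍ[ℝ] (k + 1)) := hg X.1 (sph_ne X) (sph_ne Y)
  have hQTA' := hQTA
  obtain ⟨q1, q2, q3, q4, q5, q6, q7, -⟩ := hQTA
  have hpi := Real.pi_pos
  have hnt : nrm (tl Y.1) = nrm (t2 (m := 2 * k + 1) X.1) := hvt
  have ht : t2 (m := 2 * k + 1) X.1 ≠ 0 → tl Y.1 ≠ 0 := by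
    intro h h2
    apply h
    rw [← nrm_eq_zero_iff, ← hnt, nrm_eq_zero_iff]
    exact h2
  obtain ⟨⟨e1, e2, e3⟩, -⟩ := hDS ℍ[ℝ] (k + 1) 0 Y le_rfl (by linarith)
  have eY0 : Y.1 0 = qt (xk X.1 0) (xk X.1 1) := hv0
  refine ⟨?_, ?_, ?_⟩
  · rw [hgY]
    have h1 : Real.cos (2 * dist (bp ℍ[ℝ] (k + 1) : PP ℍ[ℝ] (k + 1)) (prS Y)) =
        1 - 2 * nrm (tl Y.1) ^ 2 := by
      rw [Real.cos_two_mul, ← e2]
      have := Real.sin_sq_add_cos_sq (dist (bp ℍ[ℝ] (k + 1)) (prS Y))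
      linarith
    refine Eq.trans h1 ?_
    rw [hnt]
    rfl
  · intro h h2
    rw [hgY] at h
    apply e3 h
    rw [← nrm_eq_zero_iff, hnt, h2, nrm_eq_zero_iff]
  · intro h
    have htl := ht h
    have c1 : Real.cos (2 * (φ / 2)) = Real.cos φ := by congr 1; ring
    have c2 : Real.sin (2 * (φ / 2)) = Real.sin φ := by congr 1; ring
    have c3 : Real.cos (2 * (Real.pi / 2 - φ / 2)) = -Real.cos φ := by
      rw [← Real.cos_pi_sub]; congr 1; ring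
    have c4 : Real.sin (2 * (Real.pi / 2 - φ / 2)) = Real.sin φ := by
      rw [← Real.sin_pi_sub]; congr 1; ring
    have q7' : ∀ u u' : ℂ, re (qt 0 (star u) * star (qt u' 0)) = 0 := by
      intro u u'
      rw [← re_star, star_mul, star_star]
      exact q7 u' u
    rintro ⟨u, b⟩
    have pair : ∀ (ρ ρ' : ℝ) (Q Q' : ℍ[ℝ]) (hQ : ‖Q‖ = 1) (hQ' : ‖Q'‖ = 1)
        (hy : yv ρ Y.1 Q ≠ 0) (hy' : yv ρ' Y.1 Q' ≠ 0),
        Real.cos (2 * dist (PP.mk _ hy : PP ℍ[ℝ] (k + 1)) (PP.mk _ hy')) =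
        Real.cos (2 * ρ) * Real.cos (2 * ρ') +
          Real.sin (2 * ρ) * Real.sin (2 * ρ') * re (Q * star Q') :=
      fun ρ ρ' Q Q' hQ hQ' hy hy' => hDS2 ℍ[ℝ] (k + 1) ρ ρ' Y Q Q' htl hQ hQ' hy hy'
    cases b
    · obtain ⟨hy, d1, d2⟩ := dist_ring hDS Y (ρ := φ / 2) (by linarith) (by linarith) htl
        (norm_qt1 hQTA' u.2)
      refine ⟨hy, d1, ?_, ?_⟩
      · rw [hgY]
        refine Eq.trans d2 ?_
        rw [c1, c2, eY0, q2, q4, hnt]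
        unfold EQ zh xN
        rw [if_neg (by simp), Fin.cons_zero, re_c]
        simp only [Complex.mul_re, Complex.mul_im, Complex.ofReal_re, Complex.ofReal_im]
        ring
      · rintro ⟨u', b'⟩ hy'
        cases b'
        · refine Eq.trans (pair _ _ _ _ (norm_qt1 hQTA' u.2) (norm_qt1 hQTA' u'.2) hy hy') ?_
          rw [c1, c2, q5, if_pos rfl]
          ring
        · refine Eq.trans (pair _ _ _ _ (norm_qt1 hQTA' u.2) (norm_qt2 hQTA' u'.2) hy hy') ?_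
          rw [c1, c2, c3, c4, q7, if_neg (by simp)]
          ring
    · obtain ⟨hy, d1, d2⟩ := dist_ring hDS Y (ρ := Real.pi / 2 - φ / 2) (by linarith)
        (by linarith) htl (norm_qt2 hQTA' u.2)
      refine ⟨hy, d1, ?_, ?_⟩
      · rw [hgY]
        refine Eq.trans d2 ?_
        rw [c3, c4, eY0, q3, q4, hnt]
        unfold EQ zh xS
        rw [if_pos rfl, Fin.cons_zero, re_c]
        have e : star (u.1 : ℂ) * star (xk X.1 1) = star (u.1 * xk X.1 1) := by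
          rw [star_mul, mul_comm]
        rw [e]
        simp only [Complex.mul_re, Complex.mul_im, Complex.ofReal_re, Complex.ofReal_im,
          Complex.neg_re, Complex.star_def, Complex.conj_re]
        ring
      · rintro ⟨u', b'⟩ hy'
        cases b'
        · refine Eq.trans (pair _ _ _ _ (norm_qt2 hQTA' u.2) (norm_qt1 hQTA' u'.2) hy hy') ?_
          rw [c1, c2, c3, c4, q7', if_neg (by simp)]
          ring
        · refine Eq.trans (pair _ _ _ _ (norm_qt2 hQTA' u.2) (norm_qt2 hQTA' u'.2) hy hy') ?_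
          rw [c3, c4, q6, if_pos rfl]
          ring

end

end Pool.Agent.H43.HQ
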