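import Pool.Agent.H30.HQ.Targets
import Pool.Agent.H1.JU.HPO
import Pool.Agent.H67.FL.CPU
import Pool.Agent.H48.FL.Cel

/-!
Row SUS of hqn_modules: two open sets of the quaternionic projective space, their preimages under
the map from the complex projective space, and a section over the intersection.
-/

set_option autoImplicit false

open Topology unitInterval

namespace Pool.Agent.H43.HQ

open Pool.Agent.H30.HQ Pool.Agent.H59 Pool.Agent.H48.FR Pool.Agent.H58.FL Pool.Agent.H58.JU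
open scoped Quaternion

noncomputable section

theorem van_pre (hHEQ : T_HEQ) {X : Type} [TopologicalSpace X] (t : X → X) (hc : Continuous t)
    (ht : ∀ x, t (t x) = x) (O : Set X) (m : ℕ) (h : Van m O) : Van m ↥(t ⁻¹' O) := by
  let f : C(↥(t ⁻¹' O), O) :=
    ⟨fun x => ⟨t x.1, x.2⟩, (hc.comp continuous_subtype_val).subtype_mk _⟩
  have hm : ∀ x : O, t x.1 ∈ t ⁻¹' O := fun x => by
    rw [Set.mem_preimage, ht]
    exact x.2
  let g : C(O, ↥(t ⁻¹' O)) :=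
    ⟨fun x => ⟨t x.1, hm x⟩, (hc.comp continuous_subtype_val).subtype_mk hm⟩
  have h1 : g.comp f = ContinuousMap.id _ := ContinuousMap.ext fun x => Subtype.ext (ht x.1)
  exact (hHEQ _ _ f g (by rw [h1]) m).1 h

/-! ### reversal of the coordinates, quaternions -/

theorem rev_ne {R : Type} [Zero R] {m : ℕ} {x : Fin (m + 1) → R} (hx : x ≠ 0) :
    (fun i => x (Fin.rev i)) ≠ 0 := by
  intro h
  apply hx
  funext i
  have := congrFun h (Fin.rev i)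
  simpa using this

/-- reversal of the coordinates -/
def tH {m : ℕ} (P : HPn m) : HPn m :=
  Pool.Agent.H1.JU.mkh (fun i => PP.rep P (Fin.rev i)) (rev_ne (PP.rep_ne P))

theorem tH_mk {m : ℕ} (x : Fin (m + 1) → ℍ[ℝ]) (hx : x ≠ 0) :
    tH (Pool.Agent.H1.JU.mkh x hx) = Pool.Agent.H1.JU.mkh (fun i => x (Fin.rev i)) (rev_ne hx) := by
  obtain ⟨a, ha, h⟩ := Pool.Agent.H1.JU.rep_mk x hx
  refine Pool.Agent.H1.JU.mk_smul a _ _ _ _ ha ?_
  rw [h]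
  rfl

theorem tH_tH {m : ℕ} (P : HPn m) : tH (tH P) = P := by
  have h1 := Pool.Agent.H1.JU.mk_rep' P (PP.rep_ne P)
  have h2 : tH P = Pool.Agent.H1.JU.mkh (fun i => PP.rep P (Fin.rev i)) (rev_ne (PP.rep_ne P)) :=
    rfl
  rw [h2, tH_mk]
  simp only [Fin.rev_rev]
  exact h1

theorem cont_tH (hCMH : T_CMH) (m : ℕ) : Continuous (tH : HPn m → HPn m) := by
  have h1 : Continuous fun Q : (Set.univ : Set (HPn m)) => tH Q.1 := by
    refine Pool.Agent.H1.JU.cont_of' isOpen_univ _ ?_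
    have e : (fun x : Pool.Agent.H1.JU.XU (Set.univ : Set (HPn m)) =>
        tH (Pool.Agent.H1.JU.pt x).1) =
        fun x => Pool.Agent.H1.JU.mkh (fun i => x.1 (Fin.rev i)) (rev_ne x.2.1) := by
      funext x
      exact tH_mk x.1 x.2.1
    rw [e]
    exact hCMH _ m (fun x : Pool.Agent.H1.JU.XU (Set.univ : Set (HPn m)) =>
      fun i => x.1 (Fin.rev i)) _
      (continuous_pi fun i => (continuous_apply (Fin.rev i)).comp continuous_subtype_val)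
  exact h1.comp (Continuous.subtype_mk continuous_id fun _ => Set.mem_univ _)

theorem mem_H1 {k : ℕ} (x : Fin (k + 2) → ℍ[ℝ]) (hx : x ≠ 0) :
    Pool.Agent.H1.JU.mkh x hx ∈ tH ⁻¹' (Pool.Agent.H1.JU.O1 k) ↔
      ∃ i : Fin (k + 1), x i.castSucc ≠ 0 := by
  rw [Set.mem_preimage, tH_mk, Pool.Agent.H1.JU.mem_O1]
  constructor
  · intro h
    by_contra hn
    push Not at hn
    apply h
    funext i
    have := hn (Fin.rev i)
    rw [← Fin.rev_succ] at this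
    exact this
  · rintro ⟨i, hi⟩ h
    apply hi
    have := congrFun h (Fin.rev i)
    simp only [Fin.tail, Fin.rev_succ, Fin.rev_rev, Pi.zero_apply] at this
    exact this

theorem mem_H2 {k : ℕ} (x : Fin (k + 2) → ℍ[ℝ]) (hx : x ≠ 0) :
    Pool.Agent.H1.JU.mkh x hx ∈ tH ⁻¹' (Pool.Agent.H1.JU.O2 k) ↔ x (Fin.last (k + 1)) ≠ 0 := by
  rw [Set.mem_preimage, tH_mk, Pool.Agent.H1.JU.mem_O2, Fin.rev_zero]

/-! ### reversal of the coordinates, complex numbers -/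

/-- reversal of the coordinates -/
def tC {m : ℕ} (P : CPn m) : CPn m :=
  mk (fun i => PP.rep P (Fin.rev i)) (rev_ne (PP.rep_ne P))

theorem tC_mk {m : ℕ} (x : Fin (m + 1) → ℂ) (hx : x ≠ 0) :
    tC (mk x hx) = mk (fun i => x (Fin.rev i)) (rev_ne hx) := by
  obtain ⟨a, ha, h⟩ := Pool.Agent.H67.FL.rep_mk x hx
  refine Pool.Agent.H67.FL.mk_smul a _ _ _ _ ha ?_
  rw [h]
  rfl

theorem tC_tC {m : ℕ} (P : CPn m) : tC (tC P) = P := by
  have h1 := Pool.Agent.H67.FL.mk_rep' P (PP.rep_ne P)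
  have h2 : tC P = mk (fun i => PP.rep P (Fin.rev i)) (rev_ne (PP.rep_ne P)) := rfl
  rw [h2, tC_mk]
  simp only [Fin.rev_rev]
  exact h1

theorem cont_tC (m : ℕ) : Continuous (tC : CPn m → CPn m) := by
  have h1 : Continuous fun Q : (Set.univ : Set (CPn m)) => tC Q.1 := by
    refine Pool.Agent.H67.FL.cont_of' isOpen_univ _ ?_
    have e : (fun x : Pool.Agent.H67.FL.XU (Set.univ : Set (CPn m)) =>
        tC (Pool.Agent.H67.FL.pt x).1) =
        fun x => mk (fun i => x.1 (Fin.rev i)) (rev_ne x.2.1) := by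
      funext x
      exact tC_mk x.1 x.2.1
    rw [e]
    exact Pool.Agent.H48.FL.pf_CMK _ m (fun x : Pool.Agent.H67.FL.XU (Set.univ : Set (CPn m)) =>
      fun i => x.1 (Fin.rev i)) _
      (continuous_pi fun i => (continuous_apply (Fin.rev i)).comp continuous_subtype_val)
  exact h1.comp (Continuous.subtype_mk continuous_id fun _ => Set.mem_univ _)

theorem mem_C1 {m : ℕ} (x : Fin (m + 2) → ℂ) (hx : x ≠ 0) :
    mk x hx ∈ tC ⁻¹' (Pool.Agent.H67.FL.O1 m) ↔ ∃ i : Fin (m + 1), x i.castSucc ≠ 0 := by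
  rw [Set.mem_preimage, tC_mk, Pool.Agent.H67.FL.mem_O1]
  constructor
  · intro h
    by_contra hn
    push Not at hn
    apply h
    funext i
    have := hn (Fin.rev i)
    rw [← Fin.rev_succ] at this
    exact this
  · rintro ⟨i, hi⟩ h
    apply hi
    have := congrFun h (Fin.rev i)
    simp only [Fin.tail, Fin.rev_succ, Fin.rev_rev, Pi.zero_apply] at this
    exact this

theorem mem_C2 {m : ℕ} (x : Fin (m + 2) → ℂ) (hx : x ≠ 0) :
    mk x hx ∈ tC ⁻¹' (Pool.Agent.H67.FL.O2 m) ↔ x (Fin.last (m + 1)) ≠ 0 := by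
  rw [Set.mem_preimage, tC_mk, Pool.Agent.H67.FL.mem_O2, Fin.rev_zero]

/-! ### the map `qv` and the two sets -/

theorem qt_eq_zero (hQTA : T_QTA) {a b : ℂ} : qt a b = 0 ↔ a = 0 ∧ b = 0 := by
  have h := hQTA.1 a b
  constructor
  · intro h0
    rw [h0, norm_zero] at h
    have ha : ‖a‖ ^ 2 = 0 := by nlinarith [sq_nonneg ‖a‖, sq_nonneg ‖b‖]
    have hb : ‖b‖ ^ 2 = 0 := by nlinarith [sq_nonneg ‖a‖, sq_nonneg ‖b‖]
    exact ⟨norm_eq_zero.1 (pow_eq_zero_iff two_ne_zero |>.1 ha),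
      norm_eq_zero.1 (pow_eq_zero_iff two_ne_zero |>.1 hb)⟩
  · rintro ⟨rfl, rfl⟩
    rw [norm_zero] at h
    have : ‖qt 0 0‖ ^ 2 = 0 := by rw [h]; norm_num
    exact norm_eq_zero.1 (pow_eq_zero_iff two_ne_zero |>.1 this)

theorem xk_of_lt {m : ℕ} (x : Fin m → ℂ) {j : ℕ} (h : j < m) : xk x j = x ⟨j, h⟩ := by
  unfold xk
  rw [dif_pos h]

theorem xk_of_ge {m : ℕ} (x : Fin m → ℂ) {j : ℕ} (h : ¬ j < m) : xk x j = 0 := by
  unfold xk
  rw [dif_neg h]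

theorem qv_iff1 (hQTA : T_QTA) {k : ℕ} (x : Fin (2 * (k + 1) + 1) → ℂ) :
    (∃ i : Fin (k + 1), (qv x : Fin (k + 1 + 1) → ℍ[ℝ]) i.castSucc ≠ 0) ↔
      ∃ j : Fin (2 * (k + 1)), x j.castSucc ≠ 0 := by
  constructor
  · rintro ⟨i, hi⟩
    have h1 : (qv x : Fin (k + 1 + 1) → ℍ[ℝ]) i.castSucc =
        qt (xk x (2 * (i : ℕ))) (xk x (2 * (i : ℕ) + 1)) := rfl
    rw [h1, Ne, qt_eq_zero hQTA, not_and_or] at hi
    have hi2 := i.2
    rcases hi with hi | hi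
    · refine ⟨⟨2 * (i : ℕ), by omega⟩, ?_⟩
      rw [xk_of_lt x (j := 2 * (i : ℕ)) (by omega)] at hi
      exact hi
    · refine ⟨⟨2 * (i : ℕ) + 1, by omega⟩, ?_⟩
      rw [xk_of_lt x (j := 2 * (i : ℕ) + 1) (by omega)] at hi
      exact hi
  · rintro ⟨j, hj⟩
    have hj2 := j.2
    refine ⟨⟨(j : ℕ) / 2, by omega⟩, ?_⟩
    have h1 : (qv x : Fin (k + 1 + 1) → ℍ[ℝ]) (Fin.castSucc ⟨(j : ℕ) / 2, by omega⟩) =
        qt (xk x (2 * ((j : ℕ) / 2))) (xk x (2 * ((j : ℕ) / 2) + 1)) := rfl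
    rw [h1, Ne, qt_eq_zero hQTA, not_and_or]
    rcases Nat.mod_two_eq_zero_or_one (j : ℕ) with h | h
    · left
      have h2 : 2 * ((j : ℕ) / 2) = j := by omega
      rw [h2, xk_of_lt x (by omega)]
      exact hj
    · right
      have h2 : 2 * ((j : ℕ) / 2) + 1 = j := by omega
      rw [h2, xk_of_lt x (by omega)]
      exact hj

theorem qv_iff2 (hQTA : T_QTA) {k : ℕ} (x : Fin (2 * (k + 1) + 1) → ℂ) :
    (qv x : Fin (k + 1 + 1) → ℍ[ℝ]) (Fin.last (k + 1)) ≠ 0 ↔ x (Fin.last (2 * (k + 1))) ≠ 0 := by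
  have h1 : (qv x : Fin (k + 1 + 1) → ℍ[ℝ]) (Fin.last (k + 1)) =
      qt (xk x (2 * (k + 1))) (xk x (2 * (k + 1) + 1)) := rfl
  rw [h1, Ne, qt_eq_zero hQTA, xk_of_lt x (j := 2 * (k + 1)) (by omega), xk_of_ge x (by omega)]
  constructor
  · intro h h2
    exact h ⟨h2, rfl⟩
  · intro h h2
    exact h h2.1

/-! ### the section -/

/-- first complex part -/
def c1 (q : ℍ[ℝ]) : ℂ := ⟨q.re, q.imI⟩

/-- second complex part -/
def c2 (q : ℍ[ℝ]) : ℂ := ⟨q.imJ, q.imK⟩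

theorem qt_c (q : ℍ[ℝ]) : qt (c1 q) (c2 q) = q := by
  cases q
  rfl

theorem cont_c1 : Continuous c1 := by
  have h : c1 = fun q : ℍ[ℝ] => (q.re : ℂ) + (q.imI : ℂ) * Complex.I := by
    funext q
    apply Complex.ext <;> simp [c1]
  rw [h]
  have h1 : Continuous fun q : ℍ[ℝ] => q.re := Quaternion.continuous_re
  have h2 : Continuous fun q : ℍ[ℝ] => q.imI := Quaternion.continuous_imI
  exact (Complex.continuous_ofReal.comp h1).add ((Complex.continuous_ofReal.comp h2).mul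
    continuous_const)

theorem cont_c2 : Continuous c2 := by
  have h : c2 = fun q : ℍ[ℝ] => (q.imJ : ℂ) + (q.imK : ℂ) * Complex.I := by
    funext q
    apply Complex.ext <;> simp [c2]
  rw [h]
  have h1 : Continuous fun q : ℍ[ℝ] => q.imJ := Quaternion.continuous_imJ
  have h2 : Continuous fun q : ℍ[ℝ] => q.imK := Quaternion.continuous_imK
  exact (Complex.continuous_ofReal.comp h1).add ((Complex.continuous_ofReal.comp h2).mul
    continuous_const)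

/-- the complex coordinates of a quaternionic vector, without the last one -/
def cp {k : ℕ} (y : Fin (k + 2) → ℍ[ℝ]) (j : Fin (2 * (k + 1) + 1)) : ℂ :=
  if (j : ℕ) % 2 = 0 then c1 (y ⟨(j : ℕ) / 2, by omega⟩) else c2 (y ⟨(j : ℕ) / 2, by omega⟩)

theorem cont_cp {k : ℕ} : Continuous (cp : (Fin (k + 2) → ℍ[ℝ]) → Fin (2 * (k + 1) + 1) → ℂ) := by
  refine continuous_pi fun j => ?_
  unfold cp
  split_ifs
  · exact cont_c1.comp (continuous_apply _)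
  · exact cont_c2.comp (continuous_apply _)

theorem qv_cp {k : ℕ} (y : Fin (k + 2) → ℍ[ℝ]) (h : c2 (y (Fin.last (k + 1))) = 0) :
    (qv (cp y) : Fin (k + 1 + 1) → ℍ[ℝ]) = y := by
  funext i
  have hi := i.2
  have h1 : (qv (cp y) : Fin (k + 1 + 1) → ℍ[ℝ]) i =
      qt (xk (cp y) (2 * (i : ℕ))) (xk (cp y) (2 * (i : ℕ) + 1)) := rfl
  have h2 : xk (cp y) (2 * (i : ℕ)) = c1 (y i) := by
    rw [xk_of_lt _ (by omega)]
    unfold cp
    have e1 : ((⟨2 * (i : ℕ), by omega⟩ : Fin (2 * (k + 1) + 1)) : ℕ) % 2 = 0 := by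
      simp
    rw [if_pos e1]
    congr 2
    apply Fin.ext
    simp
  have h3 : xk (cp y) (2 * (i : ℕ) + 1) = c2 (y i) := by
    by_cases hl : (i : ℕ) = k + 1
    · rw [xk_of_ge _ (by omega)]
      have : i = Fin.last (k + 1) := Fin.ext hl
      rw [this, h]
    · rw [xk_of_lt _ (by omega)]
      unfold cp
      have e1 : ¬ ((⟨2 * (i : ℕ) + 1, by omega⟩ : Fin (2 * (k + 1) + 1)) : ℕ) % 2 = 0 := by
        simp only
        omega
      rw [if_neg e1]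
      congr 2
      apply Fin.ext
      simp only
      omega
  rw [h1, h2, h3, qt_c]

theorem c1_one : c1 1 = 1 := by
  apply Complex.ext <;> simp [c1]

theorem c2_one : c2 1 = 0 := by
  apply Complex.ext <;> simp [c2]

theorem cp_ne {k : ℕ} (y : Fin (k + 2) → ℍ[ℝ]) (h : y (Fin.last (k + 1)) = 1) : cp y ≠ 0 := by
  intro h0
  have h1 := congrFun h0 (Fin.last (2 * (k + 1)))
  unfold cp at h1
  have e1 : ((Fin.last (2 * (k + 1)) : Fin (2 * (k + 1) + 1)) : ℕ) % 2 = 0 := by simp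
  rw [if_pos e1] at h1
  have e2 : (⟨((Fin.last (2 * (k + 1)) : Fin (2 * (k + 1) + 1)) : ℕ) / 2, by
      simp⟩ : Fin (k + 2)) = Fin.last (k + 1) := by
    apply Fin.ext
    simp
  rw [e2, h, c1_one] at h1
  exact one_ne_zero h1

/-- the vector divided by its last coordinate -/
def dl {k : ℕ} (y : Fin (k + 2) → ℍ[ℝ]) : Fin (k + 2) → ℍ[ℝ] := (y (Fin.last (k + 1)))⁻¹ • y

theorem dl_last {k : ℕ} {y : Fin (k + 2) → ℍ[ℝ]} (h : y (Fin.last (k + 1)) ≠ 0) :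
    dl y (Fin.last (k + 1)) = 1 := inv_mul_cancel₀ h

theorem dl_smul {k : ℕ} (a : ℍ[ℝ]) (ha : a ≠ 0) (x : Fin (k + 2) → ℍ[ℝ]) :
    dl (a • x) = dl x := by
  unfold dl
  rw [smul_smul, Pi.smul_apply, smul_eq_mul, mul_inv_rev, mul_assoc, inv_mul_cancel₀ ha, mul_one]

theorem last_rep {k : ℕ} {P : HPn (k + 1)} (h : P ∈ tH ⁻¹' (Pool.Agent.H1.JU.O2 k)) :
    PP.rep P (Fin.last (k + 1)) ≠ 0 := by
  rw [← mem_H2 (PP.rep P) (PP.rep_ne P), Pool.Agent.H1.JU.mk_rep' P (PP.rep_ne P)]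
  exact h

/-- the section -/
def sc (k : ℕ) (P : ↥(tH ⁻¹' (Pool.Agent.H1.JU.O1 k) ∩ tH ⁻¹' (Pool.Agent.H1.JU.O2 k))) :
    CPn (2 * (k + 1)) :=
  mk (cp (dl (PP.rep P.1))) (cp_ne _ (dl_last (last_rep P.2.2)))

theorem isOpen_H1 (hCMH : T_CMH) (k : ℕ) : IsOpen (tH ⁻¹' (Pool.Agent.H1.JU.O1 k)) :=
  (Pool.Agent.H1.JU.isOpen_O1 k).preimage (cont_tH hCMH (k + 1))

theorem isOpen_H2 (hCMH : T_CMH) (k : ℕ) : IsOpen (tH ⁻¹' (Pool.Agent.H1.JU.O2 k)) :=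
  (Pool.Agent.H1.JU.isOpen_O2 k).preimage (cont_tH hCMH (k + 1))

theorem cont_sc (hCMH : T_CMH) (k : ℕ) : Continuous (sc k) := by
  refine Pool.Agent.H1.JU.cont_of' ((isOpen_H1 hCMH k).inter (isOpen_H2 hCMH k)) _ ?_
  have hl : ∀ x : Pool.Agent.H1.JU.XU
      (tH ⁻¹' (Pool.Agent.H1.JU.O1 k) ∩ tH ⁻¹' (Pool.Agent.H1.JU.O2 k)),
      x.1 (Fin.last (k + 1)) ≠ 0 := fun x => (mem_H2 x.1 x.2.1).1 x.2.2.2
  have e : (fun x : Pool.Agent.H1.JU.XU
      (tH ⁻¹' (Pool.Agent.H1.JU.O1 k) ∩ tH ⁻¹' (Pool.Agent.H1.JU.O2 k)) =>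
      sc k (Pool.Agent.H1.JU.pt x)) = fun x => mk (cp (dl x.1)) (cp_ne _ (dl_last (hl x))) := by
    funext x
    obtain ⟨a, ha, h⟩ := Pool.Agent.H1.JU.rep_mk x.1 x.2.1
    refine Pool.Agent.H67.FL.mk_smul 1 _ _ _ _ one_ne_zero ?_
    rw [one_smul]
    change cp (dl x.1) = cp (dl (PP.rep (Pool.Agent.H1.JU.mkh x.1 x.2.1)))
    rw [h, dl_smul a ha]
  rw [e]
  refine Pool.Agent.H48.FL.pf_CMK _ (2 * (k + 1)) (fun x : Pool.Agent.H1.JU.XU
    (tH ⁻¹' (Pool.Agent.H1.JU.O1 k) ∩ tH ⁻¹' (Pool.Agent.H1.JU.O2 k)) => cp (dl x.1)) _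
    (cont_cp.comp ?_)
  have h1 : Continuous fun x : Pool.Agent.H1.JU.XU
      (tH ⁻¹' (Pool.Agent.H1.JU.O1 k) ∩ tH ⁻¹' (Pool.Agent.H1.JU.O2 k)) =>
      (x.1 (Fin.last (k + 1)))⁻¹ :=
    Continuous.inv₀ ((continuous_apply _).comp continuous_subtype_val) hl
  have h2 : Continuous fun x : Pool.Agent.H1.JU.XU
      (tH ⁻¹' (Pool.Agent.H1.JU.O1 k) ∩ tH ⁻¹' (Pool.Agent.H1.JU.O2 k)) => x.1 :=
    continuous_subtype_val
  exact h1.smul h2

/-- SUS: two open sets, their preimages, and a section. -/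
theorem pf_SUS (hQTA : T_QTA) (hQVA : T_QVA) (hHEQ : T_HEQ) (hCTR : T_CTR) (hCMH : T_CMH)
    (hCPG : T_CPG) (hHPV : T_HPV) : T_SUS := by
  intro k g hg
  have hgP : ∀ P : CPn (2 * (k + 1)), ∃ (x : Fin (2 * (k + 1) + 1) → ℂ) (hx : x ≠ 0)
      (hx' : (qv x : Fin (k + 1 + 1) → ℍ[ℝ]) ≠ 0), P = mk x hx ∧
      g P = Pool.Agent.H1.JU.mkh (qv x) hx' := by
    intro P
    refine ⟨PP.rep P, PP.rep_ne P, (hQVA (k + 1)).2.2.2 _ (PP.rep_ne P),
      (Pool.Agent.H67.FL.mk_rep' P (PP.rep_ne P)).symm, ?_⟩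
    have h := hg (PP.rep P) (PP.rep_ne P) ((hQVA (k + 1)).2.2.2 _ (PP.rep_ne P))
    have h2 : (PP.mk (PP.rep P) (PP.rep_ne P) : PP ℂ (2 * (k + 1))) = P :=
      Pool.Agent.H67.FL.mk_rep' P (PP.rep_ne P)
    rw [h2] at h
    exact h
  have e1 : g ⁻¹' (tH ⁻¹' (Pool.Agent.H1.JU.O1 k)) =
      tC ⁻¹' (Pool.Agent.H67.FL.O1 (2 * k + 1)) := by
    ext P
    obtain ⟨x, hx, hx', hP, hgx⟩ := hgP P
    rw [Set.mem_preimage, hgx, mem_H1, qv_iff1 hQTA, hP]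
    exact (mem_C1 (m := 2 * k + 1) x hx).symm
  have e2 : g ⁻¹' (tH ⁻¹' (Pool.Agent.H1.JU.O2 k)) =
      tC ⁻¹' (Pool.Agent.H67.FL.O2 (2 * k + 1)) := by
    ext P
    obtain ⟨x, hx, hx', hP, hgx⟩ := hgP P
    rw [Set.mem_preimage, hgx, mem_H2, qv_iff2 hQTA, hP]
    exact (mem_C2 (m := 2 * k + 1) x hx).symm
  refine ⟨tH ⁻¹' (Pool.Agent.H1.JU.O1 k), tH ⁻¹' (Pool.Agent.H1.JU.O2 k),
    ⟨sc k, cont_sc hCMH k⟩, isOpen_H1 hCMH k, isOpen_H2 hCMH k, ?_, ?_, ?_, ?_, ?_, ?_⟩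
  · rw [← Set.preimage_union, Pool.Agent.H1.JU.union_O, Set.preimage_univ]
  · intro u
    have hl := last_rep u.2.2
    have hd : c2 (dl (PP.rep u.1) (Fin.last (k + 1))) = 0 := by rw [dl_last hl, c2_one]
    have hq := qv_cp (dl (PP.rep u.1)) hd
    have hne : (qv (cp (dl (PP.rep u.1))) : Fin (k + 1 + 1) → ℍ[ℝ]) ≠ 0 :=
      (hQVA (k + 1)).2.2.2 _ (cp_ne _ (dl_last hl))
    have h := hg (cp (dl (PP.rep u.1))) (cp_ne _ (dl_last hl)) hne
    refine Eq.trans h ?_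
    refine Eq.trans ?_ (Pool.Agent.H1.JU.mk_rep' u.1 (PP.rep_ne u.1))
    refine Pool.Agent.H1.JU.mk_smul (PP.rep u.1 (Fin.last (k + 1)))⁻¹ _ _ _ _
      (inv_ne_zero hl) ?_
    rw [hq]
    rfl
  · refine van_pre hHEQ tH (cont_tH hCMH (k + 1)) tH_tH _ _ ?_
    exact Pool.Agent.H1.JU.set1 hHEQ hCMH k _ ((hHPV k).1 _ (by omega))
  · refine van_pre hHEQ tH (cont_tH hCMH (k + 1)) tH_tH _ _ ?_
    have := Pool.Agent.H1.JU.contr2 hCMH k
    exact hCTR _ _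
  · rw [e1]
    refine van_pre hHEQ (tC : CPn (2 * k + 1 + 1) → CPn (2 * k + 1 + 1)) (cont_tC _) tC_tC _ _ ?_
    exact Pool.Agent.H67.FL.set1 hHEQ Pool.Agent.H48.FL.pf_CMK (2 * k + 1) _
      ((hCPG (2 * k + 1)).1 _ (by omega))
  · rw [e2]
    refine van_pre hHEQ (tC : CPn (2 * k + 1 + 1) → CPn (2 * k + 1 + 1)) (cont_tC _) tC_tC _ _ ?_
    have := Pool.Agent.H67.FL.contr2 Pool.Agent.H48.FL.pf_CMK (2 * k + 1)
    exact hCTR _ _

end

end Pool.Agent.H43.HQ
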